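import Mathlib
import Pool.Agent.V11320.StableMain

set_option autoImplicit false
open MeasureTheory ProbabilityTheory
open scoped ENNReal NNReal BigOperators

namespace Pool.Agent.Results.MP_bae357_pr.HeavyTailNearOne

/-- The sample space. For `ω = (N, M)`, the unit cube `z + [0, 1]^d` contains `N z` points of the
process, and `M (z, i)` is the pair formed by the position of the `i`-th of them relative to `z`
and its number of stubs. -/
abbrev Sample (d : ℕ) : Type :=
  ((Fin d → ℤ) → ℕ) × ((Fin d → ℤ) × ℕ → (Fin d → unitInterval) × ℕ)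

/-- The law of the marked Poisson process of intensity one in `ℝ^d`: the unit cubes contain
independent Poisson numbers of mean one of points, which are independent and uniform in their
cubes, and the numbers of stubs are independent of law `μ`. -/
noncomputable def poissonLaw (d : ℕ) (μ : PMF ℕ) : Measure (Sample d) :=
  (Measure.infinitePi (fun _ : Fin d → ℤ => (poissonPMF 1).toMeasure)).prod
    (Measure.infinitePi (fun _ : (Fin d → ℤ) × ℕ =>
      (volume : Measure (Fin d → unitInterval)).prod μ.toMeasure))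

/-- The points of the process. -/
abbrev Pt {d : ℕ} (ω : Sample d) : Type := {k : (Fin d → ℤ) × ℕ // k.2 < ω.1 k.1}

/-- The position of a point in `ℝ^d`. -/
noncomputable def pos {d : ℕ} (ω : Sample d) (x : Pt ω) : EuclideanSpace ℝ (Fin d) :=
  WithLp.toLp 2 fun j => (x.1.1 j : ℝ) + ((ω.2 x.1).1 j : ℝ)

/-- The number of stubs of a point. -/
def stubs {d : ℕ} (ω : Sample d) (x : Pt ω) : ℕ := (ω.2 x.1).2

/-- `x` is willing to link to `y`: it has fewer than `D(x)` edges, or an incident edge of length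
greater than `|x - y|`. -/
def Willing {d : ℕ} (ω : Sample d) (G : SimpleGraph (Pt ω)) (x y : Pt ω) : Prop :=
  (G.neighborSet x).encard < stubs ω x ∨
    ∃ z, G.Adj x z ∧ dist (pos ω x) (pos ω y) < dist (pos ω x) (pos ω z)

/-- A simple graph on the points is a stable multi-matching if every point `x` has at most `D(x)`
incident edges and no two distinct non-adjacent points are willing to link to each other. -/
def IsStableMultiMatching {d : ℕ} (ω : Sample d) (G : SimpleGraph (Pt ω)) : Prop :=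
  (∀ x, (G.neighborSet x).encard ≤ stubs ω x) ∧
  ∀ x y, x ≠ y → ¬ G.Adj x y → ¬ (Willing ω G x y ∧ Willing ω G y x)

/-- There is a connected component with infinitely many vertices. -/
def HasInfiniteComponent {V : Type} (G : SimpleGraph V) : Prop :=
  ∃ C : G.ConnectedComponent, C.supp.Infinite

/-- The mixture `p δ₁ + (1 - p) ν`. -/
noncomputable def mix (p : ℝ≥0) (hp : p ≤ 1) (ν : PMF ℕ) : PMF ℕ :=
  (PMF.bernoulli p hp).bind fun c => if c = true then PMF.pure 1 else ν

/-- The law `ν` satisfies `ν([n, ∞)) ≥ c n ^ (-α)` for some `α < 1` and `c > 0`. -/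
def HeavyTail (ν : PMF ℕ) : Prop :=
  ∃ α : ℝ, 0 ≤ α ∧ α < 1 ∧ ∃ c : ℝ, 0 < c ∧
    ∀ n : ℕ, 1 ≤ n → c * (n : ℝ) ^ (-α) ≤ (ν.toMeasure {m | n ≤ m}).toReal

open Pool.Agent.V11320

/-- the distance between labels -/
noncomputable def dl (d : ℕ) (M : (Fin d → ℤ) × ℕ → (Fin d → unitInterval) × ℕ)
    (p q : (Fin d → ℤ) × ℕ) : ℝ :=
  dist (WithLp.toLp 2 fun j => (p.1 j : ℝ) + ((M p).1 j : ℝ) : EuclideanSpace ℝ (Fin d))
    (WithLp.toLp 2 fun j => (q.1 j : ℝ) + ((M q).1 j : ℝ) : EuclideanSpace ℝ (Fin d))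

theorem dist_upper {d : ℕ} (x y : Fin d → ℝ) (c : ℝ) (hd : 1 ≤ d) (hc : 0 ≤ c)
    (h : ∀ j, |x j - y j| ≤ c) :
    dist (WithLp.toLp 2 x : EuclideanSpace ℝ (Fin d)) (WithLp.toLp 2 y) ≤ d * c := by
  rw [EuclideanSpace.dist_eq]
  have hd1 : (1 : ℝ) ≤ d := by exact_mod_cast hd
  rw [Real.sqrt_le_left (by positivity)]
  calc ∑ i : Fin d, dist (x i) (y i) ^ 2 ≤ ∑ _i : Fin d, c ^ 2 := by
        refine Finset.sum_le_sum fun i _ => ?_
        rw [Real.dist_eq]
        exact pow_le_pow_left₀ (abs_nonneg _) (h i) 2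
    _ = d * c ^ 2 := by simp
    _ ≤ (d * c) ^ 2 := by nlinarith [mul_nonneg (sub_nonneg.mpr hd1) (sq_nonneg c)]

theorem dist_lower {d : ℕ} (x y : Fin d → ℝ) (j : Fin d) :
    |x j - y j| ≤ dist (WithLp.toLp 2 x : EuclideanSpace ℝ (Fin d)) (WithLp.toLp 2 y) := by
  rw [EuclideanSpace.dist_eq]
  refine Real.le_sqrt_of_sq_le ?_
  rw [← Real.dist_eq]
  exact Finset.single_le_sum (f := fun i => dist (x i) (y i) ^ 2) (fun i _ => sq_nonneg _)
    (Finset.mem_univ j)

theorem geo (d : ℕ) (hd : 1 ≤ d) : StableProb.Geo (dl d) (2 ^ d) ((4 * d + 3) ^ d)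
    (fun i => Fintype.piFinset fun _ : Fin d => Finset.Ico (0 : ℤ) (2 ^ i))
    (fun i => Fintype.piFinset fun _ : Fin d =>
      Finset.Icc (-((2 * d + 1) * 2 ^ i) : ℤ) ((2 * d + 1) * 2 ^ i))
    (fun i => d * (2 : ℝ) ^ (i + 1)) := by
  have hu : ∀ u : unitInterval, (0 : ℝ) ≤ u ∧ (u : ℝ) ≤ 1 := fun u => u.2
  have hd0 : (1 : ℝ) ≤ d := by exact_mod_cast hd
  refine ⟨fun M x y => dist_comm _ _, ?_, ?_, ?_, ?_, ?_, ?_, ?_, ?_, ?_⟩
  · calc 2 = 2 ^ 1 := by norm_num
      _ ≤ 2 ^ d := Nat.pow_le_pow_right (by norm_num) hd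
  · exact Nat.one_le_pow _ _ (by omega)
  · intro i
    rw [Fintype.card_piFinset]
    have h2 : (2 ^ i : ℤ) = ((2 ^ i : ℕ) : ℤ) := by push_cast; rfl
    have h3 : (Finset.Ico (0 : ℤ) (2 ^ i)).card = 2 ^ i := by
      rw [Int.card_Ico, sub_zero, h2, Int.toNat_natCast]
    rw [Finset.prod_const, h3, Finset.card_univ, Fintype.card_fin, ← pow_mul, ← pow_mul, mul_comm]
  · intro i
    rw [Fintype.card_piFinset, Finset.prod_const, Finset.card_univ, Fintype.card_fin,
      ← pow_mul, mul_comm d i, pow_mul, ← mul_pow]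
    refine Nat.pow_le_pow_left ?_ d
    rw [Int.card_Icc]
    have h1 : (1 : ℤ) ≤ 2 ^ i := one_le_pow₀ (by norm_num)
    have h2 : (((4 * d + 3) * 2 ^ i : ℕ) : ℤ) = (4 * d + 3) * 2 ^ i := by push_cast; rfl
    have h3 : ((2 * (d : ℤ) + 1) * 2 ^ i + 1 - -((2 * (d : ℤ) + 1) * 2 ^ i))
        ≤ (((4 * d + 3) * 2 ^ i : ℕ) : ℤ) := by
      rw [h2]
      nlinarith
    omega
  · intro i
    have : (2 : ℝ) ^ (i + 1) ≤ 2 ^ (i + 1 + 1) := pow_le_pow_right₀ (by norm_num) (by omega)
    nlinarith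
  · intro M i z hz z' hz' k k'
    rw [Fintype.mem_piFinset] at hz hz'
    refine dist_upper _ _ _ hd (by positivity) fun j => ?_
    have hzj := Finset.mem_Ico.mp (hz j)
    have hzj' := Finset.mem_Ico.mp (hz' j)
    have h1 := hu ((M (z, k)).1 j)
    have h2 := hu ((M (z', k')).1 j)
    have h3 : (0 : ℝ) ≤ z j := by exact_mod_cast hzj.1
    have h4 : (0 : ℝ) ≤ z' j := by exact_mod_cast hzj'.1
    have h5 : (z j : ℝ) + 1 ≤ 2 ^ i := by exact_mod_cast hzj.2
    have h6 : (z' j : ℝ) + 1 ≤ 2 ^ (i + 1) := by exact_mod_cast hzj'.2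
    have h7 : (2 : ℝ) ^ i ≤ 2 ^ (i + 1) := pow_le_pow_right₀ (by norm_num) (by omega)
    rw [abs_le]
    constructor <;> simp only <;> linarith
  · intro M i z hz k w hw
    rw [Fintype.mem_piFinset] at hz ⊢
    intro j
    have hwj := (dist_lower _ _ j).trans hw
    have hzj := Finset.mem_Ico.mp (hz j)
    have h1 := hu ((M (z, k)).1 j)
    have h2 := hu ((M w).1 j)
    have h3 : (0 : ℝ) ≤ z j := by exact_mod_cast hzj.1
    have h5 : (z j : ℝ) + 1 ≤ 2 ^ i := by exact_mod_cast hzj.2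
    have h6 : (1 : ℝ) ≤ 2 ^ i := one_le_pow₀ (by norm_num)
    have h7 : (d : ℝ) * (2 : ℝ) ^ (i + 1) = 2 * d * 2 ^ i := by rw [pow_succ]; ring
    rw [abs_le, h7] at hwj
    simp only at hwj
    have h8 : (2 * (d : ℝ) + 1) * 2 ^ i = 2 * d * 2 ^ i + 2 ^ i := by ring
    rw [Finset.mem_Icc]
    constructor
    · have : (-((2 * d + 1) * 2 ^ i) : ℝ) ≤ w.1 j := by
        rw [h8]
        linarith [hwj.1, hwj.2]
      exact_mod_cast this
    · have : (w.1 j : ℝ) ≤ (2 * d + 1) * 2 ^ i := by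
        rw [h8]
        linarith [hwj.1, hwj.2]
      exact_mod_cast this
  · intro M y
    have hex : ∀ j : Fin d, ∃ n : ℕ, |(y.1 j : ℝ)| + 1 < n := fun j => exists_nat_gt _
    choose n hn using hex
    refine Filter.eventually_atTop.mpr ⟨Finset.univ.sup n, fun i hi z hz k => ?_⟩
    rw [Fintype.mem_piFinset] at hz
    refine dist_upper _ _ _ hd (by positivity) fun j => ?_
    have hzj := Finset.mem_Ico.mp (hz j)
    have h1 := hu ((M (z, k)).1 j)
    have h2 := hu ((M y).1 j)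
    have h3 : (0 : ℝ) ≤ z j := by exact_mod_cast hzj.1
    have h5 : (z j : ℝ) + 1 ≤ 2 ^ i := by exact_mod_cast hzj.2
    have h8 : (i : ℝ) ≤ 2 ^ i := by exact_mod_cast (Nat.lt_two_pow_self (n := i)).le
    have h9 : (n j : ℝ) ≤ i := by
      have h := (Finset.le_sup (f := n) (Finset.mem_univ j)).trans hi
      exact_mod_cast h
    have h10 := abs_le.mp (le_refl |(y.1 j : ℝ)|)
    have h7 : (2 : ℝ) ^ (i + 1) = 2 * 2 ^ i := by rw [pow_succ]; ring
    have h11 := hn j
    rw [abs_le, h7]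
    constructor <;> simp only <;> linarith [h10.1, h10.2]
  · intro M x r
    refine ⟨Fintype.piFinset fun j => Finset.Icc (⌊(x.1 j : ℝ) - |r| - 2⌋)
      (⌈(x.1 j : ℝ) + |r| + 2⌉), fun w hw => ?_⟩
    rw [Fintype.mem_piFinset]
    intro j
    have hwj := (dist_lower _ _ j).trans hw
    have h1 := hu ((M x).1 j)
    have h2 := hu ((M w).1 j)
    have h3 := hwj.trans (le_abs_self r)
    rw [abs_le] at h3
    rw [Finset.mem_Icc]
    constructor
    · have h4 := Int.floor_le ((x.1 j : ℝ) - |r| - 2)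
      have h5 : ((⌊(x.1 j : ℝ) - |r| - 2⌋ : ℤ) : ℝ) ≤ w.1 j := by linarith [h3.1, h3.2]
      exact_mod_cast h5
    · have h4 := Int.le_ceil ((x.1 j : ℝ) + |r| + 2)
      have h5 : (w.1 j : ℝ) ≤ ((⌈(x.1 j : ℝ) + |r| + 2⌉ : ℤ) : ℝ) := by linarith [h3.1, h3.2]
      exact_mod_cast h5

theorem mix_heavy (p : ℝ≥0) (hp : p < 1) (ν : PMF ℕ) (h : HeavyTail ν) :
    HeavyTail (mix p hp.le ν) := by
  obtain ⟨α, h0, h1, c, hc, hν⟩ := h
  have hp1 : (0 : ℝ) < 1 - p := by
    have : (p : ℝ) < 1 := by exact_mod_cast hp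
    linarith
  refine ⟨α, h0, h1, (1 - p) * c, by positivity, fun n hn => ?_⟩
  have h2 : ENNReal.ofReal (1 - p) * ν.toMeasure {m | n ≤ m}
      ≤ (mix p hp.le ν).toMeasure {m | n ≤ m} := by
    unfold mix
    rw [PMF.toMeasure_bind_apply _ _ _ MeasurableSet.of_discrete]
    refine le_trans (le_of_eq ?_) (ENNReal.le_tsum false)
    have h3 : (PMF.bernoulli p hp.le) false = ENNReal.ofReal (1 - p) := by
      rw [PMF.bernoulli_apply]
      simp only [Bool.cond_false]
      rw [ENNReal.ofReal, ← NNReal.coe_one, ← NNReal.coe_sub hp.le, Real.toNNReal_coe]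
    rw [h3]
    simp
  have h4 := ENNReal.toReal_mono (measure_ne_top _ _) h2
  rw [ENNReal.toReal_mul, ENNReal.toReal_ofReal hp1.le] at h4
  refine le_trans ?_ h4
  rw [mul_assoc]
  exact mul_le_mul_of_nonneg_left (hν n hn) hp1.le

/-- For every law `ν` with `ν([n, ∞)) ≥ c n ^ (-α)`, `α < 1`, every dimension `d ≥ 1` and every
`p < 1`, for the degree law `p δ₁ + (1 - p) ν` almost surely a stable multi-matching exists and
every stable multi-matching has an infinite component; such laws on `{2, 3, ...}` exist. -/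
theorem result :
    (∀ ν : PMF ℕ, ν 0 = 0 → ν 1 = 0 → HeavyTail ν → ∀ d : ℕ, 1 ≤ d → ∀ (p : ℝ≥0) (hp : p < 1),
      ∀ᵐ ω ∂(poissonLaw d (mix p hp.le ν)),
        (∃ G : SimpleGraph (Pt ω), IsStableMultiMatching ω G) ∧
        ∀ G : SimpleGraph (Pt ω), IsStableMultiMatching ω G → HasInfiniteComponent G) ∧
    ∃ ν : PMF ℕ, ν 0 = 0 ∧ ν 1 = 0 ∧ HeavyTail ν := by
  constructor
  · intro ν _ _ hν d hd p hp
    have h1 := StableProb.ae_rec (X := Fin d → ℤ) (volume : Measure (Fin d → unitInterval))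
      (mix p hp.le ν) (mix_heavy p hp ν hν) (geo d hd)
    filter_upwards [h1] with ω hω
    obtain ⟨x, hx⟩ := hω
    have hs : ∀ p q : Pt ω, dl d ω.2 p.1 q.1 = dl d ω.2 q.1 p.1 := fun p q => (geo d hd).symm _ _ _
    constructor
    · obtain ⟨G, hG1, hG2⟩ := StableDet.exists_stable
        (fun p q : Pt ω => dl d ω.2 p.1 q.1) (fun p => (ω.2 p.1).2) hs
        (fun p r => StableProb.finite_ball (geo d hd) ω.1 ω.2 p r)
      refine ⟨G, hG1, ?_⟩
      intro x y hne hadj
      have key : ∀ (z : Pt ω) (r : ℝ), StableDet.Sat (fun p q : Pt ω => dl d ω.2 p.1 q.1)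
          (fun p => (ω.2 p.1).2) G z r → ¬ (G.neighborSet z).encard < stubs ω z ∧
            ∀ w, G.Adj z w → dl d ω.2 z.1 w.1 ≤ r := by
        intro z r hsat
        have hfin : (G.neighborSet z).Finite := Set.finite_of_encard_le_coe (hG1 z)
        have hsub : {w | G.Adj z w ∧ dl d ω.2 z.1 w.1 ≤ r} ⊆ G.neighborSet z := fun w hw => hw.1
        have hle : (G.neighborSet z).encard ≤ {w | G.Adj z w ∧ dl d ω.2 z.1 w.1 ≤ r}.encard :=
          (hG1 z).trans hsat
        have heq := (hfin.subset hsub).eq_of_subset_of_encard_le hsub hle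
        constructor
        · intro hlt
          have h3 : (stubs ω z : ℕ∞) ≤ (G.neighborSet z).encard := by
            rw [← heq]
            exact hsat
          exact absurd (lt_of_le_of_lt h3 hlt) (lt_irrefl _)
        · intro w hw
          have hw' : w ∈ {w | G.Adj z w ∧ dl d ω.2 z.1 w.1 ≤ r} := by
            rw [heq]; exact hw
          exact hw'.2
      rintro ⟨hw1, hw2⟩
      rcases hG2 x y hne hadj with h | h
      · obtain ⟨h3, h4⟩ := key x _ h
        rcases hw1 with h5 | ⟨z, hz, hlt⟩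
        · exact h3 h5
        · exact absurd (h4 z hz) (not_le.mpr hlt)
      · obtain ⟨h3, h4⟩ := key y _ h
        rcases hw2 with h5 | ⟨z, hz, hlt⟩
        · exact h3 h5
        · have h6 := h4 z hz
          rw [hs x y] at h6
          have h7 : dl d ω.2 y.1 x.1 < dl d ω.2 y.1 z.1 := hlt
          linarith
    · intro G hG
      refine StableDet.infinite_component hx G ?_
      have key : ∀ (z y : Pt ω), ¬ Willing ω G z y →
          StableDet.Sat (fun p q : Pt ω => dl d ω.2 p.1 q.1) (fun p => (ω.2 p.1).2) G z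
            (dl d ω.2 z.1 y.1) := by
        intro z y hnw
        unfold Willing at hnw
        push Not at hnw
        obtain ⟨h2, h3⟩ := hnw
        show ((ω.2 z.1).2 : ℕ∞) ≤ {w | G.Adj z w ∧ dl d ω.2 z.1 w.1 ≤ dl d ω.2 z.1 y.1}.encard
        exact h2.trans (Set.encard_le_encard fun w hw => ⟨hw, h3 w hw⟩)
      intro x y hne hadj
      have h2 := hG.2 x y hne hadj
      rw [not_and_or] at h2
      rcases h2 with h2 | h2
      · exact Or.inl (key x y h2)
      · right
        have h3 := key y x h2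
        rw [hs y x] at h3
        exact h3
  · exact ⟨StableProb.hlaw 2, StableProb.hlaw_lt 2 0 (by norm_num),
      StableProb.hlaw_lt 2 1 (by norm_num), StableProb.hlaw_heavy 2⟩

end Pool.Agent.Results.MP_bae357_pr.HeavyTailNearOne
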